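import Pool.Agent.TH845.Mk.Fin

/-!
# Covering bounded sets by images of half-spaces
-/

set_option autoImplicit false

open Set Filter Topology Metric MeasureTheory
open scoped ENNReal

namespace Pool.Agent.TH845.Mk

open Pool.Agent.W689.Ch Pool.Agent.W689.Mk

/-- **Covering lemma.** If a group of affine maps of a space of dimension `n` preserves no proper
nonempty convex set then every ball is covered by `n + 1` images of any half-space. -/
theorem half_cover {Γ V : Type*} [Group Γ] [NormedAddCommGroup V] [NormedSpace ℝ V]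
    [FiniteDimensional ℝ V] (hol : Γ →* (V ≃ᵃ[ℝ] V))
    (hirr : ∀ C : Set V, Convex ℝ C → C.Nonempty → (∀ γ : Γ, ∀ p ∈ C, hol γ p ∈ C) → C = univ)
    {φ : V →L[ℝ] ℝ} (hφ : φ ≠ 0) (a R : ℝ) :
    ∃ s : Finset Γ, s.card ≤ Module.finrank ℝ V + 1 ∧
      ∀ x ∈ closedBall (0 : V) R, ∃ γ ∈ s, a ≤ φ (hol γ x) := by
  classical
  have : ProperSpace V := FiniteDimensional.proper_real V
  have hcont : ∀ γ : Γ, Continuous (hol γ) := fun γ =>
    AffineMap.continuous_of_finiteDimensional (hol γ).toAffineMap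
  have hconvF : ∀ γ : Γ, Convex ℝ {x | φ (hol γ x) ≤ a} := by
    intro γ
    exact ((convex_Iic a).affine_preimage
      (φ.toLinearMap.toAffineMap.comp (hol γ).toAffineMap))
  by_contra hcon
  push Not at hcon
  have h1 : (⋂ γ : Γ, closedBall (0 : V) R ∩ {x | φ (hol γ x) ≤ a}).Nonempty := by
    refine Convex.helly_theorem_compact' (𝕜 := ℝ) (fun γ => (convex_closedBall 0 R).inter (hconvF γ))
      (fun γ => (isCompact_closedBall (0 : V) R).inter_right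
        (isClosed_le (φ.continuous.comp (hcont γ)) continuous_const)) ?_
    intro I hI
    obtain ⟨x, hx, h⟩ := hcon I hI
    exact ⟨x, mem_iInter₂.2 fun γ hγ => ⟨hx, (h γ hγ).le⟩⟩
  obtain ⟨x, hx⟩ := h1
  have hx' : ∀ γ : Γ, φ (hol γ x) ≤ a := fun γ => (mem_iInter.1 hx γ).2
  have h2 := hirr {y | ∀ γ : Γ, φ (hol γ y) ≤ a} (by
      have : {y | ∀ γ : Γ, φ (hol γ y) ≤ a} = ⋂ γ : Γ, {y | φ (hol γ y) ≤ a} := by
        ext y; simp
      rw [this]
      exact convex_iInter hconvF) ⟨x, hx'⟩ (by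
      intro γ y hy δ
      have h3 := hy (δ * γ)
      rw [map_mul] at h3
      exact h3)
  obtain ⟨v, hv⟩ := exists_eq hφ (a + 1)
  have h3 : v ∈ {y | ∀ γ : Γ, φ (hol γ y) ≤ a} := by rw [h2]; trivial
  have h4 := h3 1
  rw [map_one] at h4
  have h5 : φ v ≤ a := h4
  linarith

section
variable {Γ E : Type} [Group Γ] [NormedAddCommGroup E] [NormedSpace ℝ E] [FiniteDimensional ℝ E]
  {hol : Γ →* (E ≃ᵃ[ℝ] E)}

/-- the covering lemma on an irreducible invariant affine subspace -/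
theorem sub_cover {H : AffineSubspace ℝ E} {p₀ : E} (hp : p₀ ∈ H)
    (hinv : ∀ (γ : Γ), ∀ q ∈ H, hol γ q ∈ H)
    (hirr : ∀ (S : Set H.direction) (p : H.direction), p ∈ S → StarConvex ℝ p S →
        (∀ (γ : Γ), ∀ v ∈ S, subHol hp hinv γ v ∈ S) → S = univ) (φ : E →L[ℝ] ℝ)
    (hφ : ∃ v ∈ H.direction, φ v ≠ 0) (a : ℝ) {B : Set E} (hB : Bornology.IsBounded B) :
    ∃ s : Finset Γ, s.card ≤ Module.finrank ℝ H.direction + 1 ∧
      ∀ q ∈ H, q ∈ B → ∃ γ ∈ s, a ≤ φ (hol γ q) := by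
  obtain ⟨R, hR⟩ := hB.subset_closedBall p₀
  obtain ⟨s, hs, h⟩ := half_cover (subHol hp hinv)
    (fun C hC hne hCi => by
      obtain ⟨p, hpC⟩ := hne
      exact hirr C p hpC (hC.starConvex hpC) hCi)
    (φ := φ.comp H.direction.subtypeL) (by
      obtain ⟨v, hv, hv0⟩ := hφ
      intro h0
      exact hv0 (DFunLike.congr_fun h0 ⟨v, hv⟩)) (a - φ p₀) R
  refine ⟨s, hs, fun q hq hqB => ?_⟩
  obtain ⟨γ, hγ, h1⟩ := h ⟨q - p₀, sub_mem_dir hp hq⟩ (by
    have := hR hqB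
    rw [mem_closedBall, dist_eq_norm] at this
    rw [mem_closedBall, dist_zero_right]
    exact this)
  refine ⟨γ, hγ, ?_⟩
  have h2 : a - φ p₀ ≤ φ (hol γ (p₀ + (q - p₀)) - p₀) := h1
  rw [map_sub, add_sub_cancel] at h2
  linarith

variable [MeasurableSpace E] [BorelSpace E]

/-- consequence of the covering property for measures -/
theorem measure_of_cover {H : AffineSubspace ℝ E} {n : ℕ} {φ : E →L[ℝ] ℝ} {a : ℝ}
    (h : ∀ B : Set E, Bornology.IsBounded B → ∃ s : Finset Γ, s.card ≤ n ∧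
      ∀ q ∈ H, q ∈ B → ∃ γ ∈ s, a ≤ φ (hol γ q)) (μ : Measure E) :
    μ (H : Set E) ≤ n * ⨆ γ : Γ, μ {p | p ∈ H ∧ a ≤ φ (hol γ p)} := by
  have h1 : (H : Set E) = ⋃ k : ℕ, (H : Set E) ∩ closedBall 0 (k : ℝ) := by
    rw [← inter_iUnion, iUnion_closedBall_nat, inter_univ]
  have h2 : μ (⋃ k : ℕ, (H : Set E) ∩ closedBall 0 (k : ℝ)) =
      ⨆ k : ℕ, μ ((H : Set E) ∩ closedBall 0 (k : ℝ)) := by
    refine Monotone.measure_iUnion ?_
    intro k l hkl
    exact inter_subset_inter_right _ (closedBall_subset_closedBall (by exact_mod_cast hkl))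
  rw [h1, h2]
  refine iSup_le fun k => ?_
  obtain ⟨s, hs, hcov⟩ := h (closedBall 0 (k : ℝ)) isBounded_closedBall
  calc μ ((H : Set E) ∩ closedBall 0 (k : ℝ))
      ≤ μ (⋃ γ ∈ s, {p | p ∈ H ∧ a ≤ φ (hol γ p)}) := by
        refine measure_mono fun q hq => ?_
        obtain ⟨γ, hγ, hq'⟩ := hcov q hq.1 hq.2
        exact mem_iUnion₂.2 ⟨γ, hγ, hq.1, hq'⟩
    _ ≤ ∑ γ ∈ s, μ {p | p ∈ H ∧ a ≤ φ (hol γ p)} := measure_biUnion_finset_le s _
    _ ≤ ∑ _γ ∈ s, ⨆ γ : Γ, μ {p | p ∈ H ∧ a ≤ φ (hol γ p)} :=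
        Finset.sum_le_sum fun γ _ => le_iSup (fun γ : Γ => μ {p | p ∈ H ∧ a ≤ φ (hol γ p)}) γ
    _ = s.card * ⨆ γ : Γ, μ {p | p ∈ H ∧ a ≤ φ (hol γ p)} := by
        rw [Finset.sum_const, nsmul_eq_mul]
    _ ≤ n * ⨆ γ : Γ, μ {p | p ∈ H ∧ a ≤ φ (hol γ p)} := by
        gcongr

/-- invariant measures -/
theorem inv_top {H : AffineSubspace ℝ E} (hinv : ∀ (γ : Γ), ∀ q ∈ H, hol γ q ∈ H) {n : ℕ}
    {φ : E →L[ℝ] ℝ} {μ : Measure E}
    (h : ∀ a : ℝ, μ (H : Set E) ≤ n * ⨆ γ : Γ, μ {p | p ∈ H ∧ a ≤ φ (hol γ p)})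
    (hμ : ∀ (γ : Γ) (A : Set E), MeasurableSet A → μ (hol γ ⁻¹' A) = μ A)
    (hpos : μ (H : Set E) ≠ 0) (a : ℝ) : μ {p | p ∈ H ∧ a ≤ φ p} = ∞ := by
  have hH : MeasurableSet (H : Set E) :=
    (AffineSubspace.closed_of_finiteDimensional H).measurableSet
  have hmeas : ∀ t : ℝ, MeasurableSet {p : E | p ∈ H ∧ t ≤ φ p} := fun t =>
    hH.inter (isClosed_le continuous_const φ.continuous).measurableSet
  have h1 : ∀ t : ℝ, μ (H : Set E) ≤ n * μ {p | p ∈ H ∧ t ≤ φ p} := by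
    intro t
    refine (h t).trans ?_
    gcongr
    refine iSup_le fun γ => ?_
    have h2 : {p | p ∈ H ∧ t ≤ φ (hol γ p)} = hol γ ⁻¹' {p | p ∈ H ∧ t ≤ φ p} := by
      ext p
      simp only [mem_setOf_eq, mem_preimage]
      refine and_congr_left fun _ => ⟨fun hp => hinv γ p hp, fun hp => ?_⟩
      have := hinv γ⁻¹ _ hp
      rwa [hol_inv_apply] at this
    rw [h2, hμ γ _ (hmeas t)]
  by_contra hcon
  have h2 : Tendsto (fun k : ℕ => μ {p | p ∈ H ∧ a + k ≤ φ p}) atTop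
      (𝓝 (μ (⋂ k : ℕ, {p | p ∈ H ∧ a + k ≤ φ p}))) := by
    refine tendsto_measure_iInter_atTop (fun k => (hmeas _).nullMeasurableSet) ?_
      ⟨0, by simpa using hcon⟩
    intro k l hkl p hp
    refine ⟨hp.1, ?_⟩
    have h3 : a + l ≤ φ p := hp.2
    have : (k : ℝ) ≤ l := by exact_mod_cast hkl
    linarith
  have h3 : ⋂ k : ℕ, {p : E | p ∈ H ∧ a + k ≤ φ p} = ∅ := by
    ext p
    simp only [mem_iInter, mem_setOf_eq, mem_empty_iff_false, iff_false, not_forall]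
    obtain ⟨k, hk⟩ := exists_nat_gt (φ p - a)
    exact ⟨k, fun h => by linarith [h.2]⟩
  rw [h3, measure_empty] at h2
  have h4 := ENNReal.Tendsto.const_mul (a := (n : ℝ≥0∞)) h2 (Or.inr (ENNReal.natCast_ne_top n))
  rw [mul_zero] at h4
  have h5 := ge_of_tendsto' h4 fun k : ℕ => h1 (a + k)
  exact hpos (le_antisymm h5 bot_le)

end

end Pool.Agent.TH845.Mk
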