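import Mathlib.Analysis.Convex.Radon
import Mathlib.Topology.Compactification.StoneCech
import Mathlib.Topology.Semicontinuity.Basic
import Mathlib.MeasureTheory.Constructions.BorelSpace.Metric
import Mathlib.Analysis.Normed.Module.FiniteDimension
import Mathlib.MeasureTheory.Integral.Lebesgue.Map
import Mathlib.Topology.Instances.ENNReal.Lemmas

/-!
# Orbits of finite measures under groups of affine maps

If the images of a finite measure under a group of affine maps do not lose their mass at infinity,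
then some point has a bounded orbit.
-/

set_option autoImplicit false

open Set Filter Topology MeasureTheory Metric Module
open scoped ENNReal

namespace Pool.Agent.TH845.Mk

variable {E Γ : Type*} [NormedAddCommGroup E] [NormedSpace ℝ E] [FiniteDimensional ℝ E]
  [MeasurableSpace E] [BorelSpace E] [Group Γ]

omit [FiniteDimensional ℝ E] in
/-- if the sets of a finite family in a set `B` have no common point then their total measure is
at most `(card - 1) μ B` -/
theorem sum_measure_le (ν : Measure E) {G : Finset (Set E)} {B : Set E} (hB : MeasurableSet B)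
    (hG : ∀ K ∈ G, MeasurableSet K ∧ K ⊆ B) (hi : ¬ (⋂₀ (G : Set (Set E))).Nonempty) :
    ∑ K ∈ G, ν K + ν B ≤ G.card * ν B := by
  classical
  have h1 : ∀ x, ∑ K ∈ G, K.indicator (fun _ => (1 : ℝ≥0∞)) x + B.indicator (fun _ => 1) x
      ≤ G.card * B.indicator (fun _ => 1) x := by
    intro x
    by_cases hx : x ∈ B
    · rw [indicator_of_mem hx, mul_one]
      obtain ⟨K₀, hK₀, hxK⟩ : ∃ K ∈ G, x ∉ K := by
        by_contra hcon
        push Not at hcon
        exact hi ⟨x, fun K hK => hcon K hK⟩
      have h2 : ∑ K ∈ G, K.indicator (fun _ => (1 : ℝ≥0∞)) x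
          ≤ ∑ K ∈ G.erase K₀, (1 : ℝ≥0∞) := by
        rw [← Finset.sum_erase_add _ _ hK₀, indicator_of_notMem hxK, add_zero]
        refine Finset.sum_le_sum fun K _ => ?_
        exact indicator_le (fun _ _ => le_rfl) x |>.trans le_rfl
      refine (add_le_add h2 le_rfl).trans ?_
      rw [Finset.sum_const, nsmul_eq_mul, mul_one, Finset.card_erase_of_mem hK₀]
      have h3 : 1 ≤ G.card := Finset.card_pos.2 ⟨K₀, hK₀⟩
      have h4 : ((G.card - 1 : ℕ) : ℝ≥0∞) + 1 = ((G.card - 1 + 1 : ℕ) : ℝ≥0∞) := by push_cast; rfl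
      rw [h4, Nat.sub_add_cancel h3]
    · rw [indicator_of_notMem hx, mul_zero, add_zero, Finset.sum_eq_zero]
      intro K hK
      exact indicator_of_notMem (fun h => hx ((hG K hK).2 h)) _
  have h2 := lintegral_mono (μ := ν) h1
  rw [lintegral_add_right _ (measurable_const.indicator hB),
    lintegral_finset_sum _ (fun K hK => measurable_const.indicator (hG K hK).1),
    lintegral_const_mul _ (measurable_const.indicator hB)] at h2
  have h3 : ∀ {K : Set E}, MeasurableSet K → ∫⁻ x, K.indicator (fun _ => (1 : ℝ≥0∞)) x ∂ν = ν K :=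
    fun hK => by rw [lintegral_indicator_const hK, one_mul]
  rw [h3 hB] at h2
  refine le_trans (le_of_eq ?_) h2
  congr 1
  exact Finset.sum_congr rfl fun K hK => (h3 (hG K hK).1).symm

variable (hol : Γ →* (E ≃ᵃ[ℝ] E)) (μ : Measure E)

/-- limit of the measures of the preimages of `K` along an ultrafilter -/
noncomputable def w (K : Set E) (U : Ultrafilter Γ) : ℝ≥0∞ :=
  Ultrafilter.extend (fun γ => μ (hol γ ⁻¹' K)) U

omit [FiniteDimensional ℝ E] [BorelSpace E] in
theorem w_tendsto (K : Set E) (U : Ultrafilter Γ) :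
    Tendsto (fun γ => μ (hol γ ⁻¹' K)) U (𝓝 (w hol μ K U)) := by
  have := (ultrafilter_extend_eq_iff (f := fun γ => μ (hol γ ⁻¹' K)) (b := U)
    (c := w hol μ K U)).1 rfl
  exact this

omit [FiniteDimensional ℝ E] [BorelSpace E] in
theorem w_cont (K : Set E) : Continuous (w hol μ K) := continuous_ultrafilter_extend _

omit [FiniteDimensional ℝ E] [BorelSpace E] in
theorem w_mono {K K' : Set E} (h : K ⊆ K') (U : Ultrafilter Γ) : w hol μ K U ≤ w hol μ K' U :=
  le_of_tendsto_of_tendsto' (w_tendsto hol μ K U) (w_tendsto hol μ K' U) fun _ =>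
    measure_mono (preimage_mono h)

omit [FiniteDimensional ℝ E] [BorelSpace E] in
theorem w_le (K : Set E) (U : Ultrafilter Γ) : w hol μ K U ≤ μ univ :=
  le_of_tendsto' (w_tendsto hol μ K U) fun _ => measure_mono (subset_univ _)

omit [FiniteDimensional ℝ E] [BorelSpace E] in
theorem w_map (K : Set E) (U : Ultrafilter Γ) (δ : Γ) :
    w hol μ K (U.map (δ * ·)) = w hol μ (hol δ ⁻¹' K) U := by
  refine tendsto_nhds_unique (w_tendsto hol μ K (U.map (δ * ·))) ?_
  rw [Ultrafilter.coe_map, tendsto_map'_iff]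
  refine (w_tendsto hol μ (hol δ ⁻¹' K) U).congr fun γ => ?_
  simp only [Function.comp_apply, map_mul]
  rfl

/-- the mass that does not escape -/
noncomputable def mass (U : Ultrafilter Γ) : ℝ≥0∞ := ⨆ R : ℕ, w hol μ (closedBall 0 R) U

omit [FiniteDimensional ℝ E] [BorelSpace E] in
theorem mass_lsc : LowerSemicontinuous (mass hol μ) :=
  lowerSemicontinuous_iSup fun R => (w_cont hol μ _).lowerSemicontinuous

/-- **Main lemma.** If the mass that the images of the finite measure `μ` give to the bounded set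
`B` is bounded below, then there is a point with bounded orbit. -/
theorem bounded_orbit [IsFiniteMeasure μ] {B : Set E} (hB : Bornology.IsBounded B) {c : ℝ≥0∞}
    (hc : 0 < c) (h : ∀ γ : Γ, c ≤ μ (hol γ ⁻¹' B)) :
    ∃ (q : E) (R : ℝ), ∀ γ : Γ, ‖hol γ q‖ ≤ R := by
  classical
  have hcont : ∀ γ : Γ, Continuous (hol γ) := fun γ =>
    AffineMap.continuous_of_finiteDimensional (hol γ).toAffineMap
  have hcont' : ∀ γ : Γ, Continuous (hol γ).symm := fun γ =>
    AffineMap.continuous_of_finiteDimensional (hol γ).symm.toAffineMap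
  have : Nonempty (Ultrafilter Γ) := ⟨pure 1⟩
  obtain ⟨U₀, -, hU₀⟩ := LowerSemicontinuousOn.exists_isMinOn (s := (univ : Set (Ultrafilter Γ)))
    univ_nonempty isCompact_univ ((mass_lsc hol μ).lowerSemicontinuousOn _)
  have hmin : ∀ U, mass hol μ U₀ ≤ mass hol μ U := fun U => hU₀ (mem_univ U)
  set m₀ := mass hol μ U₀ with hm₀
  have hfin : m₀ ≤ μ univ := iSup_le fun R => w_le hol μ _ _
  have hfin' : m₀ ≠ ∞ := (hfin.trans_lt (measure_lt_top μ univ)).ne
  have hpos : 0 < m₀ := by
    obtain ⟨R, hR⟩ := hB.subset_closedBall 0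
    obtain ⟨k, hk⟩ := exists_nat_ge R
    refine lt_of_lt_of_le hc (le_trans ?_ (le_iSup _ k))
    refine ge_of_tendsto' (w_tendsto hol μ (closedBall 0 (k : ℝ)) U₀) fun γ => ?_
    exact (h γ).trans (measure_mono (preimage_mono (hR.trans (closedBall_subset_closedBall hk))))
  have hposr : 0 < m₀.toReal := ENNReal.toReal_pos hpos.ne' hfin'
  have hwfin : ∀ K U, w hol μ K U ≠ ∞ := fun K U =>
    ((w_le hol μ K U).trans_lt (measure_lt_top μ univ)).ne
  set n := finrank ℝ E with hn
  set a : ℝ := m₀.toReal * (n / (n + 1)) with ha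
  have ha0 : 0 ≤ a := by positivity
  have ham : a < m₀.toReal := by
    have : (n : ℝ) / (n + 1) < 1 := by rw [div_lt_one (by positivity)]; linarith
    nlinarith
  -- tightness
  have htight : ∃ R : ℕ, ∀ δ : Γ, a < (w hol μ (hol δ ⁻¹' closedBall 0 R) U₀).toReal := by
    by_contra hcon
    push Not at hcon
    choose δ hδ using hcon
    obtain ⟨V, hV⟩ := exists_clusterPt_of_compactSpace
      (map (fun R : ℕ => U₀.map (δ R * ·)) atTop)
    have h1 : ∀ R : ℕ, w hol μ (closedBall 0 R) V ≤ ENNReal.ofReal a := by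
      intro R
      have hcl : IsClosed {W : Ultrafilter Γ | w hol μ (closedBall 0 R) W ≤ ENNReal.ofReal a} :=
        isClosed_le (w_cont hol μ _) continuous_const
      refine hcl.closure_subset (mem_closure_iff_clusterPt.2 (hV.mono ?_))
      rw [le_principal_iff, mem_map]
      filter_upwards [eventually_ge_atTop R] with R' hR'
      show w hol μ (closedBall 0 R) (U₀.map (δ R' * ·)) ≤ ENNReal.ofReal a
      have h2 : w hol μ (closedBall 0 (R : ℝ)) (U₀.map (δ R' * ·))
          ≤ w hol μ (closedBall 0 (R' : ℝ)) (U₀.map (δ R' * ·)) :=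
        w_mono hol μ (closedBall_subset_closedBall (by exact_mod_cast hR')) _
      refine h2.trans ?_
      rw [w_map, ← ENNReal.ofReal_toReal (hwfin (hol (δ R') ⁻¹' closedBall 0 (R' : ℝ)) U₀)]
      exact ENNReal.ofReal_le_ofReal (hδ R')
    have h2 : m₀ ≤ ENNReal.ofReal a := (hmin V).trans (iSup_le h1)
    have h3 := ENNReal.toReal_mono ENNReal.ofReal_ne_top h2
    rw [ENNReal.toReal_ofReal ha0] at h3
    linarith
  obtain ⟨R, hR⟩ := htight
  -- the family of compact convex sets of large measure
  set F : Set (Set E) := {K | Convex ℝ K ∧ IsCompact K ∧ a < (w hol μ K U₀).toReal} with hF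
  have hhelly : (⋂₀ F).Nonempty := by
    refine Convex.helly_theorem_set_compact' (𝕜 := ℝ) (fun K hK => hK.1) (fun K hK => hK.2.1) ?_
    intro G hGF hG
    by_contra hemp
    have hGne : G.Nonempty := by
      rw [Finset.nonempty_iff_ne_empty]
      rintro rfl
      exact hemp (by simp)
    obtain ⟨S, hS⟩ : ∃ S : ℕ, ∀ K ∈ G, K ⊆ closedBall 0 (S : ℝ) := by
      have hb : Bornology.IsBounded (⋃₀ (G : Set (Set E))) :=
        (Bornology.isBounded_sUnion G.finite_toSet).2 fun K hK => (hGF hK).2.1.isBounded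
      obtain ⟨r, hr⟩ := hb.subset_closedBall 0
      obtain ⟨k, hk⟩ := exists_nat_ge r
      exact ⟨k, fun K hK => ((subset_sUnion_of_mem (by exact_mod_cast hK)).trans hr).trans
        (closedBall_subset_closedBall hk)⟩
    have h1 : ∑ K ∈ G, w hol μ K U₀ + w hol μ (closedBall 0 (S : ℝ)) U₀
        ≤ G.card * w hol μ (closedBall 0 (S : ℝ)) U₀ := by
      refine le_of_tendsto_of_tendsto'
        ((tendsto_finset_sum G fun K _ => w_tendsto hol μ K U₀).add (w_tendsto hol μ _ U₀))
        (ENNReal.Tendsto.const_mul (w_tendsto hol μ (closedBall 0 (S : ℝ)) U₀)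
          (Or.inr (ENNReal.natCast_ne_top _))) fun γ => ?_
      have hmap : ∀ {K : Set E}, MeasurableSet K → μ (hol γ ⁻¹' K) = μ.map (hol γ) K := by
        intro K hK
        rw [Measure.map_apply (hcont γ).measurable hK]
      have hmK : ∀ K ∈ G, MeasurableSet K := fun K hK =>
        (hGF hK).2.1.isClosed.measurableSet
      rw [hmap isClosed_closedBall.measurableSet,
        Finset.sum_congr rfl fun K hK => hmap (hmK K hK)]
      exact sum_measure_le _ isClosed_closedBall.measurableSet
        (fun K hK => ⟨hmK K hK, hS K hK⟩) hemp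
    have h2 : w hol μ (closedBall 0 (S : ℝ)) U₀ ≤ m₀ :=
      le_iSup (fun R : ℕ => w hol μ (closedBall 0 (R : ℝ)) U₀) S
    have h2' := ENNReal.toReal_mono hfin' h2
    have h3 := ENNReal.toReal_mono (ENNReal.mul_ne_top (ENNReal.natCast_ne_top _)
      (hwfin (closedBall 0 (S : ℝ)) U₀)) h1
    rw [ENNReal.toReal_add (ENNReal.sum_ne_top.2 fun K _ => hwfin K U₀) (hwfin _ _),
      ENNReal.toReal_sum (fun K _ => hwfin K U₀), ENNReal.toReal_mul, ENNReal.toReal_natCast] at h3
    have h4 : ∑ K ∈ G, a < ∑ K ∈ G, (w hol μ K U₀).toReal :=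
      Finset.sum_lt_sum_of_nonempty hGne fun K hK => (hGF hK).2.2
    rw [Finset.sum_const, nsmul_eq_mul] at h4
    set g : ℝ := (G.card : ℝ) with hg
    have hg1 : 1 ≤ g := by
      have := Finset.card_pos.2 hGne
      rw [hg]; exact_mod_cast this
    have hgn : g ≤ n + 1 := by rw [hg]; exact_mod_cast hG
    set r := (w hol μ (closedBall 0 (S : ℝ)) U₀).toReal
    have h5 : g * a < (g - 1) * m₀.toReal := by nlinarith
    have h6 : a * (n + 1) = m₀.toReal * n := by rw [ha]; field_simp
    nlinarith
  obtain ⟨q, hq⟩ := hhelly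
  refine ⟨q, R, fun δ => ?_⟩
  have hmem : hol δ ⁻¹' closedBall 0 (R : ℝ) ∈ F := by
    refine ⟨(convex_closedBall (0 : E) (R : ℝ)).affine_preimage (hol δ).toAffineMap, ?_, hR δ⟩
    have h1 : hol δ ⁻¹' closedBall 0 (R : ℝ) = (hol δ).symm '' closedBall 0 (R : ℝ) := by
      ext x
      simp only [mem_preimage, mem_image]
      constructor
      · intro hx
        exact ⟨hol δ x, hx, (hol δ).symm_apply_apply x⟩
      · rintro ⟨y, hy, rfl⟩
        rwa [(hol δ).apply_symm_apply]
    rw [h1]
    have : ProperSpace E := FiniteDimensional.proper_real E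
    exact (isCompact_closedBall (0 : E) (R : ℝ)).image (hcont' δ)
  have := hq _ hmem
  simpa [mem_closedBall, dist_zero_right] using this

end Pool.Agent.TH845.Mk
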