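import Pool.Agent.TH845.Mk.Sub
import Mathlib.MeasureTheory.Measure.Typeclasses.SFinite

/-!
# Dynamics of the holonomy of closed affine manifolds without fields
-/

set_option autoImplicit false

open Set Filter Topology Metric MeasureTheory
open scoped ENNReal

namespace Pool.Agent.TH845.Mk

open Pool.Agent.W689.Ch Pool.Agent.W689.Mk

section gen
variable {E Γ : Type*} [NormedAddCommGroup E] [NormedSpace ℝ E] [FiniteDimensional ℝ E]
  [Group Γ] (hol : Γ →* (E ≃ᵃ[ℝ] E))

/-- a bounded orbit gives a compact convex invariant set -/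
theorem exists_compact_inv {q : E} {R : ℝ} (h : ∀ γ : Γ, ‖hol γ q‖ ≤ R) :
    ∃ K : Set E, K.Nonempty ∧ IsCompact K ∧ Convex ℝ K ∧ ∀ γ : Γ, ∀ p ∈ K, hol γ p ∈ K := by
  have : ProperSpace E := FiniteDimensional.proper_real E
  have hcont : ∀ γ : Γ, Continuous (hol γ) := fun γ =>
    AffineMap.continuous_of_finiteDimensional (hol γ).toAffineMap
  set O : Set E := range fun γ : Γ => hol γ q with hO
  have hOb : Bornology.IsBounded O :=
    isBounded_iff_forall_norm_le.2 ⟨R, by rintro _ ⟨γ, rfl⟩; exact h γ⟩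
  refine ⟨closure (convexHull ℝ O), ?_, ?_, (convex_convexHull ℝ O).closure, fun γ p hp => ?_⟩
  · exact ⟨hol 1 q, subset_closure (subset_convexHull ℝ O ⟨1, rfl⟩)⟩
  · exact isCompact_of_isClosed_isBounded isClosed_closure (isBounded_convexHull.2 hOb).closure
  · have h1 : MapsTo (hol γ) (convexHull ℝ O) (convexHull ℝ O) := by
      intro r hr
      have h2 : hol γ '' convexHull ℝ O = convexHull ℝ (hol γ '' O) :=
        (hol γ).toAffineMap.image_convexHull O
      have h3 : hol γ r ∈ hol γ '' convexHull ℝ O := ⟨r, hr, rfl⟩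
      rw [h2] at h3
      refine convexHull_mono ?_ h3
      rintro _ ⟨_, ⟨δ, rfl⟩, rfl⟩
      refine ⟨γ * δ, ?_⟩
      show hol (γ * δ) q = hol γ (hol δ q)
      rw [map_mul]; rfl
    exact h1.closure (hcont γ) hp

/-- either there is an invariant compact convex set, or every measure is moved to infinity along
a sequence -/
theorem escape [MeasurableSpace E] [BorelSpace E]
    (hno : ∀ K : Set E, K.Nonempty → IsCompact K → Convex ℝ K →
      ¬ ∀ γ : Γ, ∀ p ∈ K, hol γ p ∈ K) (μ : Measure E) [SFinite μ] :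
    ∃ g : ℕ → Γ, ∀ᵐ p ∂μ, Tendsto (fun k => ‖hol (g k) p‖) atTop atTop := by
  obtain ⟨ν, hν, hμν, -⟩ := exists_isFiniteMeasure_absolutelyContinuous μ
  have h1 : ∀ k : ℕ, ∃ γ : Γ, ν (hol γ ⁻¹' closedBall 0 (k : ℝ)) < (2 : ℝ≥0∞)⁻¹ ^ k := by
    intro k
    by_contra hcon
    push Not at hcon
    obtain ⟨q, R, hq⟩ := bounded_orbit hol ν (B := closedBall 0 (k : ℝ)) isBounded_closedBall
      (ENNReal.pow_pos (by simp) k) hcon
    obtain ⟨K, hK1, hK2, hK3, hK4⟩ := exists_compact_inv hol hq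
    exact hno K hK1 hK2 hK3 hK4
  choose g hg using h1
  refine ⟨g, hμν.ae_le ?_⟩
  have hsum : ∑' k, ν (hol (g k) ⁻¹' closedBall 0 (k : ℝ)) ≠ ∞ := by
    have h2 : ∑' k, ν (hol (g k) ⁻¹' closedBall 0 (k : ℝ)) ≤ ∑' k : ℕ, (2 : ℝ≥0∞)⁻¹ ^ k :=
      ENNReal.tsum_le_tsum fun k => (hg k).le
    refine (h2.trans_lt ?_).ne
    rw [ENNReal.tsum_geometric]
    exact (by norm_num : ((1 : ℝ≥0∞) - 2⁻¹)⁻¹ < ∞)
  have h3 : ∀ᵐ p ∂ν, ∀ᶠ k in atTop, p ∉ hol (g k) ⁻¹' closedBall 0 (k : ℝ) :=
    ae_eventually_notMem hsum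
  filter_upwards [h3] with p hp
  refine tendsto_atTop_mono' atTop ?_ tendsto_natCast_atTop_atTop
  filter_upwards [hp] with k hk
  simp only [mem_preimage, mem_closedBall, dist_zero_right, not_le] at hk
  exact hk.le

end gen

section
variable {X Γ E : Type} [TopologicalSpace X] [T2Space X] [Group Γ] [MulAction Γ X]
  [NormedAddCommGroup E] [NormedSpace ℝ E] [FiniteDimensional ℝ E]
  {dev : X → E} {hol : Γ →* (E ≃ᵃ[ℝ] E)}

/-- a field without zeros on the part that is developed into `H` -/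
def Fld (dev : X → E) (hol : Γ →* (E ≃ᵃ[ℝ] E)) (H : AffineSubspace ℝ E) : Prop :=
  ∃ Z : X → E, ContinuousOn Z {x | dev x ∈ H} ∧
    (∀ x, dev x ∈ H → Z x ∈ H.direction ∧ Z x ≠ 0) ∧
    ∀ (γ : Γ) (x : X), dev x ∈ H → Z (γ • x) = lin hol γ (Z x)

/-- the holonomy preserves no compact convex set, or there is a field -/
theorem no_compact (D : AffMfd X Γ E dev hol) [PreconnectedSpace X] [Nontrivial E]
    (hno : ¬ ∃ Z : X → E, Continuous Z ∧ (∀ (γ : Γ) x, Z (γ • x) = lin hol γ (Z x)) ∧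
      ∀ x, Z x ≠ 0) (K : Set E) (hK1 : K.Nonempty) (hK2 : IsCompact K) (hK3 : Convex ℝ K) :
    ¬ ∀ γ : Γ, ∀ p ∈ K, hol γ p ∈ K := fun hK4 =>
  hno (field_of_disjoint D hK3 hK4 hK1 fun x => compact_disjoint D hK2 hK4 x)

theorem core (D : AffMfd X Γ E dev hol) [PreconnectedSpace X] [Nontrivial E]
    (hno : ¬ Fld dev hol ⊤) :
    ∃ (H : AffineSubspace ℝ E) (p₀ : E) (hp : p₀ ∈ H)
      (hinv : ∀ (γ : Γ), ∀ q ∈ H, hol γ q ∈ H), H.direction ≠ ⊥ ∧ (∃ x, dev x ∈ H) ∧
      ¬ Fld dev hol H ∧ ∀ (S : Set H.direction) (p : H.direction), p ∈ S → StarConvex ℝ p S →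
        (∀ (γ : Γ), ∀ v ∈ S, subHol hp hinv γ v ∈ S) → S = univ := by
  classical
  let P : ℕ → Prop := fun n => ∃ H : AffineSubspace ℝ E, Module.finrank ℝ H.direction = n ∧
    (∀ (γ : Γ), ∀ q ∈ H, hol γ q ∈ H) ∧ (∃ x, dev x ∈ H) ∧ ¬ Fld dev hol H
  have hX : Nonempty X := by
    by_contra hX
    rw [not_nonempty_iff] at hX
    exact hno ⟨fun _ => 0, continuous_of_discreteTopology.continuousOn, fun x => hX.elim x,
      fun _ x => hX.elim x⟩
  obtain ⟨x₁⟩ := hX
  have hP : ∃ n, P n := ⟨_, ⊤, rfl, fun γ q _ => AffineSubspace.mem_top ℝ E _,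
    ⟨x₁, AffineSubspace.mem_top ℝ E _⟩, hno⟩
  obtain ⟨H, hHn, hinv, ⟨x₀, hx₀⟩, hHno⟩ := Nat.find_spec hP
  have hmin : ∀ m, P m → Nat.find hP ≤ m := fun m hm => Nat.find_min' hP hm
  set p₀ := dev x₀ with hp₀
  refine ⟨H, p₀, hx₀, hinv, ?_, ⟨x₀, hx₀⟩, hHno, ?_⟩
  · intro hbot
    -- a fixed point in the developing image
    have h1 : ∀ q ∈ H, q = p₀ := by
      intro q hq
      have h2 := sub_mem_dir hx₀ hq
      rw [hbot, Submodule.mem_bot] at h2
      exact sub_eq_zero.1 h2
    refine compact_disjoint D (K₀ := {p₀}) isCompact_singleton ?_ x₀ rfl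
    rintro γ q rfl
    exact h1 _ (hinv γ _ hx₀)
  · intro S p hpS hs hSinv
    by_contra hne
    letI := subAct D hinv
    have D' := subMfd D hx₀ hinv
    have hXH : Nonempty {x : X // dev x ∈ H} := ⟨⟨x₀, hx₀⟩⟩
    have hno' : ¬ ∃ Z : {x : X // dev x ∈ H} → H.direction, Continuous Z ∧
        (∀ (γ : Γ) x, Z (γ • x) = lin (subHol hx₀ hinv) γ (Z x)) ∧ ∀ x, Z x ≠ 0 := by
      rintro ⟨Z, hZ1, hZ2, hZ3⟩
      apply hHno
      refine ⟨fun x => if h : dev x ∈ H then (Z ⟨x, h⟩ : E) else 0, ?_, ?_, ?_⟩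
      · rw [continuousOn_iff_continuous_restrict]
        refine Continuous.congr (continuous_subtype_val.comp hZ1) fun x => ?_
        have hxH : dev x.1 ∈ H := x.2
        show (Z x : E) = if h : dev x.1 ∈ H then (Z ⟨x.1, h⟩ : E) else 0
        rw [dif_pos hxH]
        rfl
      · intro x hx
        beta_reduce
        rw [dif_pos hx]
        exact ⟨(Z ⟨x, hx⟩).2, fun h => hZ3 ⟨x, hx⟩ (Subtype.ext h)⟩
      · intro γ x hx
        have hγx : dev (γ • x) ∈ H := by rw [D.equi]; exact hinv γ _ hx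
        beta_reduce
        rw [dif_pos hx, dif_pos hγx]
        have h1 := congrArg Subtype.val (hZ2 γ ⟨x, hx⟩)
        exact h1
    obtain ⟨-, ⟨x₂, hx₂⟩, hspan, hspi, hfld⟩ := main D' hpS hs hne hSinv hno'
    set A := affineSpan ℝ (Ker S) with hA
    -- the corresponding subspace of `E`
    let f : H.direction →ᵃ[ℝ] E :=
      (AffineMap.const ℝ H.direction p₀ : H.direction →ᵃ[ℝ] E) +
        H.direction.subtype.toAffineMap
    have hf : ∀ v, f v = p₀ + v.1 := fun v => rfl
    have hmem : ∀ q, q ∈ A.map f ↔ ∃ v ∈ A, p₀ + v.1 = q := fun q => by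
      rw [AffineSubspace.mem_map]
      rfl
    have hdir : (A.map f).direction = A.direction.map H.direction.subtype := by
      rw [AffineSubspace.map_direction]
      congr 1
      ext v
      simp [f]
    have hlt : Module.finrank ℝ (A.map f).direction < Module.finrank ℝ H.direction := by
      rw [hdir, (Submodule.equivSubtypeMap H.direction A.direction).finrank_eq.symm]
      apply Submodule.finrank_lt
      intro htop
      apply hspan
      have hAne : (A : Set H.direction).Nonempty := ⟨p, subset_affineSpan ℝ _ ⟨hpS, hs⟩⟩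
      exact (AffineSubspace.direction_eq_top_iff_of_nonempty hAne).1 htop
    have hPA : P (Module.finrank ℝ (A.map f).direction) := by
      refine ⟨A.map f, rfl, ?_, ?_, ?_⟩
      · intro γ q hq
        obtain ⟨v, hv, rfl⟩ := (hmem q).1 hq
        refine (hmem _).2 ⟨_, hspi γ v hv, ?_⟩
        rw [subHol_apply, add_sub_cancel]
      · refine ⟨x₂.1, (hmem _).2 ⟨_, subset_affineSpan ℝ _ hx₂, ?_⟩⟩
        show p₀ + (dev x₂.1 - p₀) = dev x₂.1
        rw [add_sub_cancel]
      · rintro ⟨Z, hZ1, hZ2, hZ3⟩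
        apply hfld
        have hin : ∀ x : {x : X // dev x ∈ H}, subDev dev hx₀ x ∈ A → dev x.1 ∈ A.map f := by
          intro x hx
          refine (hmem _).2 ⟨_, hx, ?_⟩
          show p₀ + (dev x.1 - p₀) = dev x.1
          rw [add_sub_cancel]
        have hZd : ∀ x : X, dev x ∈ A.map f → ∃ w ∈ A.direction, (w : E) = Z x := by
          intro x hx
          have h1 := (hZ2 x hx).1
          rw [hdir] at h1
          exact h1
        refine ⟨fun x => if h : Z x.1 ∈ H.direction then ⟨Z x.1, h⟩ else 0, ?_, ?_, ?_⟩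
        · rw [continuousOn_iff_continuous_restrict]
          have hZc : Continuous fun x : subDev dev hx₀ ⁻¹' (A : Set H.direction) => Z x.1.1 := by
            refine hZ1.comp_continuous (by fun_prop) fun x => hin x.1 x.2
          have h2 : ∀ x : subDev dev hx₀ ⁻¹' (A : Set H.direction), Z x.1.1 ∈ H.direction := by
            intro x
            obtain ⟨w, -, hw⟩ := hZd x.1.1 (hin x.1 x.2)
            rw [← hw]; exact w.2
          refine Continuous.congr (hZc.subtype_mk h2) fun x => ?_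
          exact (dif_pos (h2 x)).symm
        · intro x hx
          obtain ⟨w, hwA, hw⟩ := hZd x.1 (hin x hx)
          have h2 : Z x.1 ∈ H.direction := by rw [← hw]; exact w.2
          beta_reduce
          rw [dif_pos h2]
          have h3 : (⟨Z x.1, h2⟩ : H.direction) = w := Subtype.ext hw.symm
          rw [h3]
          refine ⟨hwA, fun h0 => (hZ2 x.1 (hin x hx)).2 ?_⟩
          rw [← hw, h0]; rfl
        · intro γ x hx
          obtain ⟨w, hwA, hw⟩ := hZd x.1 (hin x hx)
          have h2 : Z x.1 ∈ H.direction := by rw [← hw]; exact w.2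
          have h4 := hZ3 γ x.1 (hin x hx)
          have h5 : Z (γ • x).1 = lin hol γ (Z x.1) := h4
          have h6 : Z (γ • x).1 ∈ H.direction := by
            rw [h5]; exact lin_mem_dir hx₀ hinv γ h2
          beta_reduce
          rw [dif_pos h2, dif_pos h6]
          exact Subtype.ext h5
    have h1 := hmin _ hPA
    rw [← hHn] at h1
    omega

end

end Pool.Agent.TH845.Mk
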