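import Mathlib.MeasureTheory.Measure.Haar.OfBasis
import Mathlib.Analysis.Normed.Module.FiniteDimension
import Mathlib.Analysis.Normed.Module.Dual
import Mathlib.MeasureTheory.OuterMeasure.BorelCantelli
import Mathlib.MeasureTheory.Constructions.BorelSpace.Metric

/-!
# Measures and half-spaces under convex-irreducible groups of affine maps
-/

set_option autoImplicit false

open Set Filter Topology MeasureTheory Metric Module
open scoped ENNReal

namespace Pool.Agent.TH845.Mk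

variable {E Γ : Type*} [NormedAddCommGroup E] [NormedSpace ℝ E] [FiniteDimensional ℝ E]
  [MeasurableSpace E] [BorelSpace E] [Group Γ]
variable (hol : Γ →* (E ≃ᵃ[ℝ] E)) (μ : Measure E)

/-- the largest mass that the images of `μ` give to a closed half-space -/
noncomputable def N (φ : E →L[ℝ] ℝ) (a : ℝ) : ℝ≥0∞ := ⨆ γ : Γ, μ {p | a ≤ φ (hol γ p)}

omit [FiniteDimensional ℝ E] [BorelSpace E] in
theorem N_anti (φ : E →L[ℝ] ℝ) {a b : ℝ} (h : a ≤ b) : N hol μ φ b ≤ N hol μ φ a :=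
  iSup_mono fun _ => measure_mono fun _ hp => h.trans hp

omit [MeasurableSpace E] [BorelSpace E] in
theorem comp_lin (φ : E →L[ℝ] ℝ) (δ : Γ) : ∃ ψ : E →L[ℝ] ℝ, (φ ≠ 0 → ψ ≠ 0) ∧
    ∀ p q, φ (hol δ p) - φ (hol δ q) = ψ p - ψ q := by
  refine ⟨LinearMap.toContinuousLinearMap (φ.toLinearMap ∘ₗ (hol δ).linear.toLinearMap), ?_, ?_⟩
  · intro h h0
    apply h
    ext v
    have h1 := DFunLike.congr_fun h0 ((hol δ).linear.symm v)
    simpa using h1
  · intro p q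
    have h1 : hol δ p - hol δ q = (hol δ).linear (p - q) := by
      have := (hol δ).toAffineMap.linearMap_vsub p q
      simpa using this.symm
    rw [← map_sub, h1]
    simp

omit [FiniteDimensional ℝ E] [MeasurableSpace E] [BorelSpace E] in
theorem exists_eq {φ : E →L[ℝ] ℝ} (h : φ ≠ 0) (a : ℝ) : ∃ q, φ q = a := by
  obtain ⟨v, hv⟩ : ∃ v, φ v ≠ 0 := by
    by_contra hcon
    push Not at hcon
    exact h (by ext v; simpa using hcon v)
  exact ⟨(a / φ v) • v, by simp [hv]⟩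

/-- **Main lemma.** If no proper nonempty convex set is invariant, then the images of a nonzero
measure are bounded below on all closed half-spaces. -/
theorem half_lower (hirr : ∀ C : Set E, Convex ℝ C → C.Nonempty →
    (∀ γ : Γ, ∀ p ∈ C, hol γ p ∈ C) → C = univ) (hμ : μ ≠ 0) :
    ∃ c : ℝ≥0∞, 0 < c ∧ ∀ φ : E →L[ℝ] ℝ, φ ≠ 0 → ∀ a : ℝ, c ≤ ⨆ γ : Γ, μ {p | a ≤ φ (hol γ p)} := by
  classical
  have : ProperSpace E := FiniteDimensional.proper_real E
  have : ProperSpace (E →L[ℝ] ℝ) := FiniteDimensional.proper_real _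
  by_contra hcon
  push Not at hcon
  -- the sets `C ε`
  have hconv : ∀ ε : ℝ≥0∞, Convex ℝ {q : E | ∀ φ : E →L[ℝ] ℝ, φ ≠ 0 → ε ≤ N hol μ φ (φ q)} := by
    intro ε x hx y hy s t hs ht hst φ hφ
    rcases le_total (φ x) (φ y) with h | h
    · refine (hy φ hφ).trans (N_anti hol μ φ ?_)
      rw [map_add, map_smul, map_smul, smul_eq_mul, smul_eq_mul]
      have h1 := mul_le_mul_of_nonneg_left h hs
      have h2 : s * φ y + t * φ y = φ y := by rw [← add_mul, hst, one_mul]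
      linarith
    · refine (hx φ hφ).trans (N_anti hol μ φ ?_)
      rw [map_add, map_smul, map_smul, smul_eq_mul, smul_eq_mul]
      have h1 := mul_le_mul_of_nonneg_left h ht
      have h2 : s * φ x + t * φ x = φ x := by rw [← add_mul, hst, one_mul]
      linarith
  have hinv : ∀ ε : ℝ≥0∞, ∀ δ : Γ, ∀ q ∈ {q : E | ∀ φ : E →L[ℝ] ℝ, φ ≠ 0 → ε ≤ N hol μ φ (φ q)},
      hol δ q ∈ {q : E | ∀ φ : E →L[ℝ] ℝ, φ ≠ 0 → ε ≤ N hol μ φ (φ q)} := by
    intro ε δ q hq φ hφ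
    obtain ⟨ψ, hψ0, hψ⟩ := comp_lin hol φ δ
    refine (hq ψ (hψ0 hφ)).trans (iSup_le fun γ => ?_)
    refine le_trans (measure_mono ?_)
      (le_iSup (fun γ : Γ => μ {p | φ (hol δ q) ≤ φ (hol γ p)}) (δ * γ))
    intro p hp
    have h1 := hψ (hol γ p) q
    have h2 : hol (δ * γ) p = hol δ (hol γ p) := by rw [map_mul]; rfl
    simp only [mem_setOf_eq] at hp ⊢
    rw [h2]
    linarith
  have hempty : ∀ ε : ℝ≥0∞, 0 < ε →
      ∀ q : E, ∃ φ : E →L[ℝ] ℝ, φ ≠ 0 ∧ N hol μ φ (φ q) < ε := by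
    intro ε hε
    by_contra hq
    push Not at hq
    have h1 := hirr _ (hconv ε) hq (hinv ε)
    obtain ⟨φ, hφ, a, ha⟩ := hcon ε hε
    obtain ⟨q, rfl⟩ := exists_eq hφ a
    have h2 : q ∈ {q : E | ∀ φ : E →L[ℝ] ℝ, φ ≠ 0 → ε ≤ N hol μ φ (φ q)} := by rw [h1]; trivial
    exact absurd ha (not_lt.2 (h2 φ hφ))
  -- null half-spaces
  have hnull : ∀ q : E, ∃ φ : E →L[ℝ] ℝ, φ ≠ 0 ∧ ∀ γ : Γ, μ {p | φ q < φ (hol γ p)} = 0 := by
    intro q
    have h1 : ∀ k : ℕ, ∃ φ : E →L[ℝ] ℝ, φ ∈ sphere (0 : E →L[ℝ] ℝ) 1 ∧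
        N hol μ φ (φ q) < (2 : ℝ≥0∞)⁻¹ ^ k := by
      intro k
      obtain ⟨φ, hφ, h⟩ := hempty ((2 : ℝ≥0∞)⁻¹ ^ k) (ENNReal.pow_pos (by simp) k) q
      have hn : 0 < ‖φ‖ := norm_pos_iff.2 hφ
      refine ⟨‖φ‖⁻¹ • φ, ?_, ?_⟩
      · rw [mem_sphere_zero_iff_norm, norm_smul, norm_inv, norm_norm, inv_mul_cancel₀ hn.ne']
      · refine lt_of_le_of_lt (iSup_mono fun γ => measure_mono fun p hp => ?_) h
        simp only [mem_setOf_eq, ContinuousLinearMap.smul_apply, smul_eq_mul] at hp ⊢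
        exact le_of_mul_le_mul_left hp (inv_pos.2 hn)
    choose φ hφ hN using h1
    obtain ⟨ψ, hψ, κ, hκ, hlim⟩ := (isCompact_sphere (0 : E →L[ℝ] ℝ) 1).tendsto_subseq hφ
    have hψ0 : ψ ≠ 0 := by
      rintro rfl
      simp at hψ
    refine ⟨ψ, hψ0, fun γ => ?_⟩
    have hpt : ∀ v : E, Tendsto (fun j => φ (κ j) v) atTop (𝓝 (ψ v)) := fun v =>
      ((ContinuousLinearMap.apply ℝ ℝ v).continuous.tendsto ψ).comp hlim
    have hsum : ∑' j, μ {p | φ (κ j) q ≤ φ (κ j) (hol γ p)} ≠ ∞ := by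
      have h2 : ∑' j, μ {p | φ (κ j) q ≤ φ (κ j) (hol γ p)} ≤ ∑' j : ℕ, (2 : ℝ≥0∞)⁻¹ ^ j := by
        refine ENNReal.tsum_le_tsum fun j => ?_
        refine (le_iSup (fun γ : Γ => μ {p | φ (κ j) q ≤ φ (κ j) (hol γ p)}) γ).trans ?_
        refine (hN (κ j)).le.trans ?_
        exact pow_le_pow_right_of_le_one' (by simp) (hκ.id_le j)
      refine (h2.trans_lt ?_).ne
      rw [ENNReal.tsum_geometric]
      exact (by norm_num : ((1 : ℝ≥0∞) - 2⁻¹)⁻¹ < ∞)
    have hBC := measure_limsup_atTop_eq_zero hsum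
    refine measure_mono_null (fun p hp => ?_) hBC
    rw [mem_limsup_iff_frequently_mem]
    refine Eventually.frequently ?_
    have h3 : ∀ᶠ j in atTop, φ (κ j) q < φ (κ j) (hol γ p) :=
      (hpt q).eventually_lt (hpt (hol γ p)) hp
    filter_upwards [h3] with j hj using hj.le
  -- the intersection of the complements of all null half-spaces
  set D : Set E := {q | ∀ φ : E →L[ℝ] ℝ, φ ≠ 0 → ∀ a : ℝ,
    (∀ γ : Γ, μ {p | a < φ (hol γ p)} = 0) → φ q ≤ a} with hD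
  have hDc : Convex ℝ D := by
    intro x hx y hy s t hs ht hst φ hφ a h
    have h1 := mul_le_mul_of_nonneg_left (hx φ hφ a h) hs
    have h2 := mul_le_mul_of_nonneg_left (hy φ hφ a h) ht
    have h3 : s * a + t * a = a := by rw [← add_mul, hst, one_mul]
    rw [map_add, map_smul, map_smul, smul_eq_mul, smul_eq_mul]
    linarith
  have hDi : ∀ δ : Γ, ∀ q ∈ D, hol δ q ∈ D := by
    intro δ q hq φ hφ a h
    obtain ⟨ψ, hψ0, hψ⟩ := comp_lin hol φ δ
    have h0 := hψ q (hol δ⁻¹ 0)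
    have h00 : hol δ (hol δ⁻¹ (0 : E)) = 0 := by
      have : hol δ (hol δ⁻¹ (0 : E)) = (hol δ * hol δ⁻¹) 0 := rfl
      rw [this, ← map_mul, mul_inv_cancel, map_one]; rfl
    rw [h00, map_zero, sub_zero] at h0
    have h1 := hq ψ (hψ0 hφ) (a + ψ (hol δ⁻¹ 0)) fun γ => ?_
    · linarith
    · refine measure_mono_null (fun p hp => ?_) (h (δ * γ))
      have h2 : hol (δ * γ) p = hol δ (hol γ p) := by rw [map_mul]; rfl
      have h3 := hψ (hol γ p) (hol δ⁻¹ 0)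
      rw [h00, map_zero, sub_zero] at h3
      simp only [mem_setOf_eq] at hp ⊢
      rw [h2]
      linarith
  have hDne : D ≠ univ := by
    intro hu
    obtain ⟨φ, hφ, h⟩ := hnull 0
    obtain ⟨v, hv⟩ := exists_eq hφ (φ 0 + 1)
    have h1 : v ∈ D := by rw [hu]; trivial
    have h2 := h1 φ hφ (φ 0) h
    linarith
  have hDem : ∀ q, q ∉ D := by
    intro q hq
    exact hDne (hirr D hDc ⟨q, hq⟩ hDi)
  apply hμ
  rw [← Measure.measure_univ_eq_zero]
  refine measure_null_of_locally_null _ fun q _ => ?_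
  have h1 := hDem q
  rw [hD] at h1
  simp only [mem_setOf_eq, not_forall] at h1
  obtain ⟨φ, hφ, a, h, hlt⟩ := h1
  push Not at hlt
  refine ⟨{p | a < φ p}, mem_nhdsWithin_of_mem_nhds
    ((isOpen_lt continuous_const φ.continuous).mem_nhds hlt), ?_⟩
  have h2 := h 1
  simpa using h2

/-- An invariant measure whose images are bounded below on half-spaces is infinite on every
half-space. -/
theorem half_top {c : ℝ≥0∞} (hc : 0 < c)
    (h : ∀ φ : E →L[ℝ] ℝ, φ ≠ 0 → ∀ a : ℝ, c ≤ ⨆ γ : Γ, μ {p | a ≤ φ (hol γ p)})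
    (hinv : ∀ (γ : Γ) (A : Set E), MeasurableSet A → μ (hol γ ⁻¹' A) = μ A) (φ : E →L[ℝ] ℝ)
    (hφ : φ ≠ 0) (a : ℝ) : μ {p | a ≤ φ p} = ∞ := by
  by_contra hcon
  have hmeas : ∀ t : ℝ, MeasurableSet {p : E | t ≤ φ p} := fun t =>
    (isClosed_le continuous_const φ.continuous).measurableSet
  have h1 : ∀ t : ℝ, c ≤ μ {p | t ≤ φ p} := by
    intro t
    refine (h φ hφ t).trans (iSup_le fun γ => ?_)
    exact (hinv γ {p | t ≤ φ p} (hmeas t)).le
  have h2 : Tendsto (fun k : ℕ => μ {p | a + k ≤ φ p}) atTop (𝓝 (μ (⋂ k : ℕ, {p | a + k ≤ φ p}))) := by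
    refine tendsto_measure_iInter_atTop (fun k => (hmeas _).nullMeasurableSet) ?_ ⟨0, by simpa using hcon⟩
    intro k l hkl p hp
    simp only [mem_setOf_eq] at hp ⊢
    have : (k : ℝ) ≤ l := by exact_mod_cast hkl
    linarith
  have h3 : ⋂ k : ℕ, {p : E | a + k ≤ φ p} = ∅ := by
    ext p
    simp only [mem_iInter, mem_setOf_eq, mem_empty_iff_false, iff_false, not_forall, not_le]
    obtain ⟨k, hk⟩ := exists_nat_gt (φ p - a)
    exact ⟨k, by linarith⟩
  rw [h3, measure_empty] at h2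
  have h4 := ge_of_tendsto' h2 fun k : ℕ => h1 (a + k)
  exact absurd hc (not_lt.2 h4)

end Pool.Agent.TH845.Mk
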