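import Pool.Agent.W689.Ch.Main
import Pool.Agent.TH845.Mk.Esc

/-!
# Compact sets that are invariant under the holonomy

The holonomy of a closed affine manifold of positive dimension preserves no compact set that meets
the developing image.
-/

set_option autoImplicit false

open Set Filter Topology Metric

namespace Pool.Agent.TH845.Mk

open Pool.Agent.W689.Ch Pool.Agent.W689.Mk

section
variable {X E : Type} [TopologicalSpace X] [T2Space X] [NormedAddCommGroup E] [NormedSpace ℝ E]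
  {dev : X → E}

omit [T2Space X] in
/-- concatenation of collinear geodesics -/
theorem Geod.trans {x : X} {v : E} {s : ℝ} (hs : 0 < s) {c : ℝ → X}
    (hc : ContinuousOn c (Icc 0 1)) (h0 : c 0 = x) (hd : ∀ t ∈ Icc (0 : ℝ) 1, dev (c t) = dev x + t • v)
    (h' : Geod dev (c 1) (s • v)) : Geod dev x ((1 + s) • v) := by
  obtain ⟨c', hc', h0', hd'⟩ := h'
  have h1s : (0 : ℝ) < 1 + s := by linarith
  have hd1 : dev (c 1) = dev x + v := by rw [hd 1 ⟨zero_le_one, le_rfl⟩, one_smul]
  refine ⟨fun t => if (1 + s) * t ≤ 1 then c ((1 + s) * t) else c' (((1 + s) * t - 1) / s),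
    ?_, ?_, ?_⟩
  · refine ContinuousOn.if' ?_ ?_ ?_ ?_
    · rintro a ⟨ha, hfr⟩
      have ha1 : (1 + s) * a = 1 := by
        have := frontier_le_subset_eq (f := fun a : ℝ => (1 + s) * a) (g := fun _ => (1 : ℝ))
          (by fun_prop) continuous_const hfr
        exact this
      have h2 : c ((1 + s) * a) = c 1 := by rw [ha1]
      rw [if_pos ha1.le, h2]
      have hcw : ContinuousWithinAt (fun t => c ((1 + s) * t)) (Icc 0 1 ∩ {a | (1 + s) * a ≤ 1}) a := by
        have h3 : ContinuousWithinAt c (Icc 0 1) ((1 + s) * a) := hc _ (by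
          rw [ha1]; exact ⟨zero_le_one, le_rfl⟩)
        refine ContinuousWithinAt.comp (t := Icc 0 1) h3 (by fun_prop) ?_
        rintro u ⟨hu, hu'⟩
        exact ⟨mul_nonneg h1s.le hu.1, hu'⟩
      have := hcw.tendsto
      rw [h2] at this
      exact this
    · rintro a ⟨ha, hfr⟩
      have ha1 : (1 + s) * a = 1 := by
        have := frontier_le_subset_eq (f := fun a : ℝ => (1 + s) * a) (g := fun _ => (1 : ℝ))
          (by fun_prop) continuous_const hfr
        exact this
      have h2 : c ((1 + s) * a) = c 1 := by rw [ha1]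
      rw [if_pos ha1.le, h2, ← h0']
      have h5 : c' 0 = c' (((1 + s) * a - 1) / s) := by rw [ha1]; simp
      have hcw : ContinuousWithinAt (fun t => c' (((1 + s) * t - 1) / s))
          (Icc 0 1 ∩ {a | ¬ (1 + s) * a ≤ 1}) a := by
        have h3 : ContinuousWithinAt c' (Icc 0 1) (((1 + s) * a - 1) / s) := hc' _ (by
          rw [ha1]; simp)
        refine ContinuousWithinAt.comp (t := Icc 0 1) h3 (by fun_prop) ?_
        rintro u ⟨hu, hu'⟩
        simp only [mem_setOf_eq, not_le] at hu'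
        refine ⟨div_nonneg (by linarith) hs.le, ?_⟩
        rw [div_le_one hs]
        have := mul_le_mul_of_nonneg_left hu.2 h1s.le
        linarith
      have := hcw.tendsto
      rw [← h5] at this
      exact this
    · refine hc.comp (by fun_prop) ?_
      rintro u ⟨hu, hu'⟩
      exact ⟨mul_nonneg h1s.le hu.1, hu'⟩
    · refine hc'.comp (by fun_prop) ?_
      rintro u ⟨hu, hu'⟩
      simp only [mem_setOf_eq, not_le] at hu'
      refine ⟨div_nonneg (by linarith) hs.le, ?_⟩
      rw [div_le_one hs]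
      have := mul_le_mul_of_nonneg_left hu.2 h1s.le
      linarith
  · simp [h0]
  · intro t ht
    beta_reduce
    split_ifs with h
    · rw [hd _ ⟨mul_nonneg h1s.le ht.1, h⟩, smul_smul, mul_comm]
    · push Not at h
      rw [hd' _ ⟨div_nonneg (by linarith) hs.le, ?_⟩, hd1, smul_smul, smul_smul,
        div_mul_cancel₀ _ hs.ne']
      · module
      · rw [div_le_one hs]
        have := mul_le_mul_of_nonneg_left ht.2 h1s.le
        linarith

end

variable {X Γ E : Type} [TopologicalSpace X] [T2Space X] [Group Γ] [MulAction Γ X]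
  [NormedAddCommGroup E] [NormedSpace ℝ E] [FiniteDimensional ℝ E]
  {dev : X → E} {hol : Γ →* (E ≃ᵃ[ℝ] E)}

theorem Ex_smul' (D : AffMfd X Γ E dev hol) (γ : Γ) {x : X} {v : E} {y : X}
    (h : Ex dev x v y) : Ex dev (γ • x) (lin hol γ v) (γ • y) := by
  obtain ⟨U, σ, h1, h2, h3, h4, h5⟩ := h
  have hpre : hol γ '' U = hol γ⁻¹ ⁻¹' U := by
    ext p
    constructor
    · rintro ⟨q, hq, rfl⟩
      show hol γ⁻¹ (hol γ q) ∈ U
      rwa [hol_inv_apply]
    · intro hp
      exact ⟨hol γ⁻¹ p, hp, hol_apply_inv γ p⟩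
  have hsec : Sec dev (hol γ '' U) (fun p => γ • σ (hol γ⁻¹ p)) := by
    refine ⟨?_, ?_, ?_, ?_⟩
    · rw [hpre]; exact h1.isOpen.preimage (hol_cont _)
    · rw [hpre]; exact h1.convex.affine_preimage (hol γ⁻¹).toAffineMap
    · refine (D.cont γ).comp_continuousOn (h1.cont.comp (hol_cont _).continuousOn ?_)
      rw [hpre]
      exact fun p hp => hp
    · rintro _ ⟨q, hq, rfl⟩
      rw [D.equi, hol_inv_apply, h1.inv q hq]
  refine ⟨hol γ '' U, fun p => γ • σ (hol γ⁻¹ p), hsec, ?_, ?_, ?_, ?_⟩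
  · rw [D.equi]; exact ⟨_, h2, rfl⟩
  · rw [D.equi]; beta_reduce; rw [hol_inv_apply, h3]
  · rw [D.equi, ← hol_add]; exact ⟨_, h4, rfl⟩
  · rw [D.equi, ← hol_add]; beta_reduce; rw [hol_inv_apply, h5]

/-- the outward geodesics are defined for a uniform time -/
theorem uniform_out (D : AffMfd X Γ E dev hol) {K₀ : Set E} (hK₀ : IsCompact K₀)
    (hinv : ∀ (γ : Γ), ∀ q ∈ K₀, hol γ q ∈ K₀) :
    ∃ t₀ : ℝ, t₀ > 0 ∧ ∀ x, ∀ q ∈ K₀, ∃ y, Ex dev x (t₀ • (dev x - q)) y := by
  obtain ⟨K, hK, hcov⟩ := D.cc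
  have hloc : ∃ t₀ > (0 : ℝ), ∀ t, 0 ≤ t → t ≤ t₀ → ∀ x ∈ K, ∀ q ∈ K₀,
      ∃ y, Ex dev x (t • (dev x - q)) y := by
    refine hK.induction_on (p := fun S => ∃ t₀ > (0 : ℝ), ∀ t, 0 ≤ t → t ≤ t₀ → ∀ x ∈ S, ∀ q ∈ K₀,
      ∃ y, Ex dev x (t • (dev x - q)) y) ⟨1, one_pos, fun t _ _ x hx => hx.elim⟩ ?_ ?_ ?_
    · rintro S S' hSS ⟨t₀, h0, h⟩
      exact ⟨t₀, h0, fun t ht ht' x hx => h t ht ht' x (hSS hx)⟩
    · rintro S S' ⟨t₀, h0, h⟩ ⟨t₁, h1, h'⟩
      refine ⟨min t₀ t₁, lt_min h0 h1, fun t ht ht' x hx => ?_⟩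
      rcases hx with hx | hx
      · exact h t ht (ht'.trans (min_le_left _ _)) x hx
      · exact h' t ht (ht'.trans (min_le_right _ _)) x hx
    · intro x _
      obtain ⟨e, r, hxe, he, hr, hrt⟩ := exists_sec D.loc x
      have hτ := sec_of_target e he (dev x) r hrt
      have hop := hτ.isOpen_image D.loc (V := ball (dev x) (r / 2)) isOpen_ball
        (ball_subset_ball (by linarith))
      have hxm : x ∈ e.symm '' ball (dev x) (r / 2) :=
        ⟨dev x, mem_ball_self (by positivity), by rw [he]; exact e.left_inv hxe⟩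
      obtain ⟨b, hb⟩ := hK₀.isBounded.subset_closedBall 0
      refine ⟨e.symm '' ball (dev x) (r / 2), mem_nhdsWithin_of_mem_nhds (hop.mem_nhds hxm),
        r / (4 * (‖dev x‖ + r + |b| + 1)), by positivity, ?_⟩
      rintro t ht ht' _ ⟨q', hq', rfl⟩ q hq
      have hq'r : q' ∈ ball (dev x) r := ball_subset_ball (by linarith) hq'
      have hdq : dev (e.symm q') = q' := hτ.inv q' hq'r
      refine ⟨_, hτ.Ex (q := q') (v := t • (dev (e.symm q') - q)) hq'r ?_⟩
      rw [hdq, mem_ball, dist_eq_norm]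
      rw [mem_ball, dist_eq_norm] at hq'
      have h1 : ‖q‖ ≤ |b| := by
        have := hb hq
        rw [mem_closedBall, dist_zero_right] at this
        exact this.trans (le_abs_self b)
      have h2 : ‖q' - q‖ ≤ ‖dev x‖ + r + |b| := by
        have h3 : q' - q = (q' - dev x) + dev x - q := by abel
        rw [h3]
        have h4 := norm_sub_le ((q' - dev x) + dev x) q
        have h5 := norm_add_le (q' - dev x) (dev x)
        linarith
      have h6 : t * ‖q' - q‖ ≤ r / 4 := by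
        have h7 : t * (4 * (‖dev x‖ + r + |b| + 1)) ≤ r := by
          rwa [le_div_iff₀ (by positivity)] at ht'
        have h8 : t * ‖q' - q‖ ≤ t * (‖dev x‖ + r + |b|) := mul_le_mul_of_nonneg_left h2 ht
        nlinarith
      have h9 : q' + t • (q' - q) - dev x = (q' - dev x) + t • (q' - q) := by abel
      rw [h9]
      refine (norm_add_le _ _).trans_lt ?_
      rw [norm_smul, Real.norm_eq_abs, abs_of_nonneg ht]
      linarith
  obtain ⟨t₀, h0, h⟩ := hloc
  refine ⟨t₀, h0, fun x q hq => ?_⟩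
  obtain ⟨γ, k, hk, rfl⟩ := hcov x
  obtain ⟨y, hy⟩ := h t₀ h0.le le_rfl k hk (hol γ⁻¹ q) (hinv _ _ hq)
  refine ⟨γ • y, ?_⟩
  have h1 := Ex_smul' D γ hy
  have h2 : lin hol γ (t₀ • (dev k - hol γ⁻¹ q)) = t₀ • (dev (γ • k) - q) := by
    rw [lin_smul, ← hol_sub, hol_apply_inv, D.equi]
  rwa [h2] at h1

/-- a point that is developed into an invariant compact set is complete -/
theorem complete_of_mem (D : AffMfd X Γ E dev hol) {K₀ : Set E} (hK₀ : IsCompact K₀)
    (hinv : ∀ (γ : Γ), ∀ q ∈ K₀, hol γ q ∈ K₀) {x : X} (hx : dev x ∈ K₀) (v : E) :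
    ∃ y, Ex dev x v y := by
  obtain ⟨t₀, h0, h⟩ := uniform_out D hK₀ hinv
  have hstep : ∀ w : E, Geod dev x w → Geod dev x ((1 + t₀) • w) := by
    rintro w ⟨c, hc, hc0, hcd⟩
    have h1 : dev (c 1) = dev x + w := by rw [hcd 1 ⟨zero_le_one, le_rfl⟩, one_smul]
    obtain ⟨y, hy⟩ := h (c 1) (dev x) hx
    rw [h1, add_sub_cancel_left] at hy
    exact Geod.trans h0 hc hc0 hcd hy.geod
  have hiter : ∀ (n : ℕ) (w : E), Geod dev x w → Geod dev x ((1 + t₀) ^ n • w) := by
    intro n
    induction n with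
    | zero => intro w hw; simpa using hw
    | succ n ih =>
      intro w hw
      have := hstep _ (ih w hw)
      rwa [smul_smul, ← pow_succ'] at this
  obtain ⟨e, r, hxe, he, hr, hrt⟩ := exists_sec D.loc x
  have hτ := sec_of_target e he (dev x) r hrt
  have hlim : Tendsto (fun n : ℕ => dev x + ((1 + t₀) ^ n)⁻¹ • v) atTop (𝓝 (dev x + (0 : ℝ) • v)) := by
    refine tendsto_const_nhds.add (Tendsto.smul_const ?_ v)
    exact (tendsto_pow_atTop_atTop_of_one_lt (by linarith)).inv_tendsto_atTop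
  rw [zero_smul, add_zero] at hlim
  obtain ⟨n, hn⟩ := (hlim.eventually (ball_mem_nhds (dev x) hr)).exists
  have hex : Ex dev x (((1 + t₀) ^ n)⁻¹ • v) (e.symm (dev x + ((1 + t₀) ^ n)⁻¹ • v)) := by
    have h1 := hτ.Ex (q := dev x) (v := ((1 + t₀) ^ n)⁻¹ • v) (mem_ball_self hr) hn
    have h2 : e.symm (dev x) = x := by rw [he]; exact e.left_inv hxe
    rwa [h2] at h1
  have h3 := hiter n _ hex.geod
  rw [smul_smul, mul_inv_cancel₀ (by positivity), one_smul] at h3
  exact h3.ex D.loc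

/-- an invariant compact set misses the developing image -/
theorem compact_disjoint (D : AffMfd X Γ E dev hol) [PreconnectedSpace X] [Nontrivial E]
    {K₀ : Set E} (hK₀ : IsCompact K₀) (hinv : ∀ (γ : Γ), ∀ q ∈ K₀, hol γ q ∈ K₀) (x : X) :
    dev x ∉ K₀ := by
  intro hx
  have hhom : IsHomeomorph dev := homeo_of_all D.loc (x := x) (complete_of_mem D hK₀ hinv hx)
  have hK' : IsCompact (dev ⁻¹' K₀) := hhom.homeomorph.isCompact_preimage.2 hK₀
  have hfin : Finite Γ := by
    have h1 := D.pd _ hK'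
    have h2 : {γ : Γ | ∃ x ∈ dev ⁻¹' K₀, γ • x ∈ dev ⁻¹' K₀} = univ := by
      ext γ
      refine ⟨fun _ => trivial, fun _ => ⟨x, hx, ?_⟩⟩
      show dev (γ • x) ∈ K₀
      rw [D.equi]
      exact hinv γ _ hx
    rw [h2] at h1
    exact finite_univ_iff.1 h1
  obtain ⟨K, hK, hcov⟩ := D.cc
  have hXc : IsCompact (univ : Set X) := by
    have h1 : (univ : Set X) = ⋃ γ : Γ, (fun x => γ • x) '' K := by
      ext y
      refine ⟨fun _ => ?_, fun _ => trivial⟩
      obtain ⟨γ, k, hk, rfl⟩ := hcov y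
      exact mem_iUnion.2 ⟨γ, k, hk, rfl⟩
    rw [h1]
    exact isCompact_iUnion fun γ => hK.image (D.cont γ)
  have hEc : IsCompact (univ : Set E) := by
    have h1 := hXc.image hhom.continuous
    rwa [image_univ, hhom.surjective.range_eq] at h1
  exact (noncompact_univ E) hEc

end Pool.Agent.TH845.Mk
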