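import Pool.Agent.TH845.Mk.Out
import Pool.Agent.TH845.Mk.Half
import Mathlib.Topology.LocalAtTarget

/-!
# The affine manifold that is developed into an invariant affine subspace
-/

set_option autoImplicit false

open Set Filter Topology Metric

namespace Pool.Agent.TH845.Mk

open Pool.Agent.W689.Ch Pool.Agent.W689.Mk

variable {X Γ E : Type} [TopologicalSpace X] [T2Space X] [Group Γ] [MulAction Γ X]
  [NormedAddCommGroup E] [NormedSpace ℝ E] [FiniteDimensional ℝ E]
  {dev : X → E} {hol : Γ →* (E ≃ᵃ[ℝ] E)}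

/-- the action on the part that is developed into `H` -/
@[reducible] def subAct (D : AffMfd X Γ E dev hol) {H : AffineSubspace ℝ E}
    (hinv : ∀ (γ : Γ), ∀ q ∈ H, hol γ q ∈ H) : MulAction Γ {x : X // dev x ∈ H} where
  smul γ x := ⟨γ • x.1, by rw [D.equi]; exact hinv γ _ x.2⟩
  one_smul x := Subtype.ext (one_smul Γ x.1)
  mul_smul γ δ x := Subtype.ext (mul_smul γ δ x.1)

variable {H : AffineSubspace ℝ E} {p₀ : E}

omit [FiniteDimensional ℝ E] in
theorem add_mem_H (hp : p₀ ∈ H) (v : H.direction) : p₀ + (v : E) ∈ H := by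
  have := AffineSubspace.vadd_mem_of_mem_direction v.2 hp
  rwa [vadd_eq_add, add_comm] at this

omit [FiniteDimensional ℝ E] in
theorem sub_mem_dir {p q : E} (hp : p ∈ H) (hq : q ∈ H) : q - p ∈ H.direction :=
  AffineSubspace.vsub_mem_direction hq hp

omit [FiniteDimensional ℝ E] in
theorem lin_mem_dir (hp : p₀ ∈ H) (hinv : ∀ (γ : Γ), ∀ q ∈ H, hol γ q ∈ H) (γ : Γ) {v : E}
    (hv : v ∈ H.direction) : lin hol γ v ∈ H.direction := by
  have h1 := sub_mem_dir (hinv γ _ hp) (hinv γ _ (add_mem_H hp ⟨v, hv⟩))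
  rwa [hol_add, add_sub_cancel_left] at h1

/-- the linear part of the restricted holonomy -/
noncomputable def subLin (hp : p₀ ∈ H) (hinv : ∀ (γ : Γ), ∀ q ∈ H, hol γ q ∈ H) (γ : Γ) :
    H.direction ≃ₗ[ℝ] H.direction where
  toFun v := ⟨lin hol γ v.1, lin_mem_dir hp hinv γ v.2⟩
  map_add' v w := Subtype.ext ((hol γ).linear.map_add v.1 w.1)
  map_smul' t v := Subtype.ext ((hol γ).linear.map_smul t v.1)
  invFun v := ⟨lin hol γ⁻¹ v.1, lin_mem_dir hp hinv γ⁻¹ v.2⟩
  left_inv v := Subtype.ext (lin_inv_apply γ v.1)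
  right_inv v := Subtype.ext (by
    have := lin_inv_apply (hol := hol) γ⁻¹ v.1
    rwa [inv_inv] at this)

/-- the restricted holonomy -/
noncomputable def subHolEquiv (hp : p₀ ∈ H) (hinv : ∀ (γ : Γ), ∀ q ∈ H, hol γ q ∈ H) (γ : Γ) :
    H.direction ≃ᵃ[ℝ] H.direction where
  toFun v := ⟨hol γ (p₀ + v.1) - p₀, sub_mem_dir hp (hinv γ _ (add_mem_H hp v))⟩
  invFun v := ⟨hol γ⁻¹ (p₀ + v.1) - p₀, sub_mem_dir hp (hinv γ⁻¹ _ (add_mem_H hp v))⟩
  left_inv v := Subtype.ext (by
    show hol γ⁻¹ (p₀ + (hol γ (p₀ + v.1) - p₀)) - p₀ = v.1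
    rw [add_sub_cancel, hol_inv_apply, add_sub_cancel_left])
  right_inv v := Subtype.ext (by
    show hol γ (p₀ + (hol γ⁻¹ (p₀ + v.1) - p₀)) - p₀ = v.1
    rw [add_sub_cancel, hol_apply_inv, add_sub_cancel_left])
  linear := subLin hp hinv γ
  map_vadd' p v := Subtype.ext (by
    show hol γ (p₀ + (v.1 + p.1)) - p₀ = lin hol γ v.1 + (hol γ (p₀ + p.1) - p₀)
    have : p₀ + (v.1 + p.1) = (p₀ + p.1) + v.1 := by abel
    rw [this, hol_add]
    abel)

/-- the restricted holonomy as a homomorphism -/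
noncomputable def subHol (hp : p₀ ∈ H) (hinv : ∀ (γ : Γ), ∀ q ∈ H, hol γ q ∈ H) :
    Γ →* (H.direction ≃ᵃ[ℝ] H.direction) where
  toFun γ := subHolEquiv hp hinv γ
  map_one' := by
    ext v
    show hol 1 (p₀ + v.1) - p₀ = v.1
    rw [map_one]
    show (p₀ + v.1) - p₀ = v.1
    abel
  map_mul' γ δ := by
    ext v
    show hol (γ * δ) (p₀ + v.1) - p₀ = hol γ (p₀ + (hol δ (p₀ + v.1) - p₀)) - p₀
    rw [add_sub_cancel, map_mul]
    rfl

omit [FiniteDimensional ℝ E] in
theorem subHol_apply (hp : p₀ ∈ H) (hinv : ∀ (γ : Γ), ∀ q ∈ H, hol γ q ∈ H) (γ : Γ)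
    (v : H.direction) : ((subHol hp hinv γ v : H.direction) : E) = hol γ (p₀ + v.1) - p₀ := rfl

/-- the developing map of the part that is developed into `H` -/
def subDev (dev : X → E) (hp : p₀ ∈ H) (x : {x : X // dev x ∈ H}) : H.direction :=
  ⟨dev x.1 - p₀, sub_mem_dir hp x.2⟩

omit [T2Space X] [FiniteDimensional ℝ E] in
theorem subDev_loc (hloc : IsLocalHomeomorph dev) (hp : p₀ ∈ H) :
    IsLocalHomeomorph (subDev dev hp) := by
  -- `H` is homeomorphic to its direction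
  let e : (H : Set E) ≃ₜ H.direction :=
    { toFun := fun q => ⟨q.1 - p₀, sub_mem_dir hp q.2⟩
      invFun := fun v => ⟨p₀ + v.1, add_mem_H hp v⟩
      left_inv := fun q => Subtype.ext (by simp)
      right_inv := fun v => Subtype.ext (by simp)
      continuous_toFun := by fun_prop
      continuous_invFun := by fun_prop }
  have h1 : IsLocalHomeomorph ((H : Set E).restrictPreimage dev) := by
    rw [isLocalHomeomorph_iff_isOpenEmbedding_restrict]
    rintro ⟨x, hx⟩
    obtain ⟨U, hU, hUe⟩ := (isLocalHomeomorph_iff_isOpenEmbedding_restrict.1 hloc) x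
    refine ⟨Subtype.val ⁻¹' U, continuous_subtype_val.continuousAt hU, ?_⟩
    have h2 := (H : Set E).restrictPreimage_isOpenEmbedding hUe
    let i : ((Subtype.val : (dev ⁻¹' (H : Set E)) → X) ⁻¹' U) ≃ₜ
        ((U.restrict dev) ⁻¹' (H : Set E)) :=
      { toFun := fun y => ⟨⟨y.1.1, y.2⟩, y.1.2⟩
        invFun := fun y => ⟨⟨y.1.1, y.2⟩, y.1.2⟩
        left_inv := fun y => rfl
        right_inv := fun y => rfl
        continuous_toFun := by fun_prop
        continuous_invFun := by fun_prop }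
    exact h2.comp i.isOpenEmbedding
  exact e.isLocalHomeomorph.comp h1

/-- the closed affine manifold that is developed into `H` -/
theorem subMfd (D : AffMfd X Γ E dev hol) (hp : p₀ ∈ H)
    (hinv : ∀ (γ : Γ), ∀ q ∈ H, hol γ q ∈ H) :
    letI := subAct D hinv
    AffMfd {x : X // dev x ∈ H} Γ H.direction (subDev dev hp) (subHol hp hinv) := by
  letI := subAct D hinv
  have hcl : IsClosed {x : X | dev x ∈ H} :=
    (AffineSubspace.closed_of_finiteDimensional H).preimage D.loc.continuous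
  refine ⟨subDev_loc D.loc hp, fun γ => ?_, fun γ x => ?_, fun K hK => ?_, ?_⟩
  · exact Continuous.subtype_mk ((D.cont γ).comp continuous_subtype_val) _
  · apply Subtype.ext
    show dev (γ • x.1) - p₀ = hol γ (p₀ + (dev x.1 - p₀)) - p₀
    rw [add_sub_cancel, D.equi]
  · refine (D.pd _ (hK.image continuous_subtype_val)).subset ?_
    rintro γ ⟨x, hx, hγ⟩
    exact ⟨x.1, ⟨x, hx, rfl⟩, ⟨_, hγ, rfl⟩⟩
  · obtain ⟨K, hK, hcov⟩ := D.cc
    refine ⟨Subtype.val ⁻¹' K, ?_, fun x => ?_⟩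
    · exact (hcl.isClosedEmbedding_subtypeVal).isCompact_preimage hK
    · obtain ⟨γ, k, hk, hγ⟩ := hcov x.1
      have hkH : dev k ∈ H := by
        have h1 : k = γ⁻¹ • x.1 := by rw [← hγ, inv_smul_smul]
        rw [h1, D.equi]
        exact hinv _ _ x.2
      exact ⟨γ, ⟨k, hkH⟩, hk, Subtype.ext hγ⟩

end Pool.Agent.TH845.Mk
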